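import Pool.Agent.Work.MP_8f87b2_h71.H1Gad
import Pool.Agent.Work.MP_8f87b2_end.Inv2

/-!
MP_8f87b2_co, rule H1 against the E-triples.

`ae_shape`: the E-type words of a window `R`, `Q = [q + 1]`, `B`, `S` (`i < 20`, word `(X)`, `X()` or `()X`):
`X = R()Q`, `i = 1, 2, 3`; or `B` empty, `X = Q()S`, `i = 11, 14, 18`; or `q = 0` and an explicit list.
`ae_low`: with the E-rule (`X = ins r f`, `Low r`) and `a ≥ 1` or `q = 1` or `q = 2` only `B` empty, `X = Q()S`,
`q = 1`, or `q = 2` and `a = 0`, remains.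
-/

set_option autoImplicit false

namespace Pool.OddHC

open BinaryTree

namespace H1

variable {k q a m : ℕ} {R B S X : BinaryTree Unit} {R0 B1 s : BinaryTree Unit}

/-! ### Shape -/

/-- what is needed of the window -/
structure Wd (R B S : BinaryTree Unit) : Prop where
  R0 : R ≠ .nil
  fR : fb R = false
  lR : lastB R = false
  fB : fb B = false
  lB : lastB B = false
  S0 : S ≠ .nil
  fS : fb S = false
  lS : lastB S = false

theorem fb_app {P Q : BinaryTree Unit} (h : P ≠ .nil) : fb (app P Q) = fb P := by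
  cases P with
  | nil => exact absurd rfl h
  | node _ A Y => rfl

theorem fb_nil_node (Y : BinaryTree Unit) : fb (.nil △ Y) = true := rfl

/-- the explicit list for `Q = ()` -/
def Ex (R B S X : BinaryTree Unit) (i : ℕ) : Prop :=
  (i = 2 ∧ X = .nil △ app R (.nil △ .nil)) ∨ (i = 7 ∧ X = (.nil △ R) △ .nil) ∨
  (i = 8 ∧ X = .nil △ (R △ .nil)) ∨ (i = 9 ∧ X = (R △ .nil) △ .nil) ∨
  (i = 12 ∧ X = S △ app B (.nil △ .nil)) ∨ (i = 17 ∧ X = (S △ B) △ .nil) ∨
  (i = 18 ∧ X = .nil △ app S (B △ .nil)) ∨ (i = 19 ∧ X = app S (B △ .nil) △ .nil)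

/-- the possible `X` -/
def Sh (q : ℕ) (R B S X : BinaryTree Unit) (i : ℕ) : Prop :=
  (X = app R (.nil △ ch (q + 1)) ∧ (i = 1 ∨ i = 2 ∨ i = 3)) ∨
  (B = .nil ∧ X = app (ch (q + 1)) (.nil △ S) ∧ (i = 11 ∨ i = 14 ∨ i = 18)) ∨
  (q = 0 ∧ Ex R B S X i)

theorem lastB_ch (q : ℕ) : lastB (ch (q + 1)) = true → q = 0 := by
  intro h
  rw [ch_succ, lastB_one] at h
  cases q with
  | zero => rfl
  | succ q => rw [ch_succ] at h; exact absurd h (by simp [isNil])

theorem fb_ch (q : ℕ) (Y : BinaryTree Unit) : fb (app (ch (q + 1)) Y) = true → q = 0 := by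
  intro h
  cases q with
  | zero => rfl
  | succ q => exact absurd h (by simp [ch, app, fb, isNil])

/-- words `()X` -/
theorem sh_fst (h : Wd R B S) {i : ℕ} (hi : i < 20) (e : W R (ch (q + 1)) B S i = .nil △ X) :
    Sh q R B S X i := by
  have hf : fb (W R (ch (q + 1)) B S i) = true := by rw [e]; rfl
  interval_cases i
  · rw [W, fb_app h.R0, h.fR] at hf; exact absurd hf (by simp)
  · rw [W, fb_app h.R0, h.fR] at hf; exact absurd hf (by simp)
  · exact Or.inl ⟨(node_inj e).2.symm, Or.inr (Or.inl rfl)⟩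
  · exact absurd hf (by
      change isNil (app R _) ≠ true
      rw [isNil_f.2 (app_ne' h.R0)]; simp)
  · exact absurd hf (by
      change isNil (app (ch (q + 1)) (.nil △ .nil)) ≠ true
      rw [isNil_f.2 (app_ne (by simp))]; simp)
  · exact absurd hf (by simp [W, fb, ch, isNil])
  · exact absurd hf (by
      change isNil R ≠ true
      rw [isNil_f.2 h.R0]; simp)
  · obtain rfl := fb_ch q _ hf
    exact Or.inr (Or.inr ⟨rfl, Or.inr (Or.inl ⟨rfl, (node_inj e).2.symm⟩)⟩)
  · obtain rfl := fb_ch q _ hf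
    exact Or.inr (Or.inr ⟨rfl, Or.inr (Or.inr (Or.inl ⟨rfl, (node_inj e).2.symm⟩))⟩)
  · exact absurd hf (by simp [W, fb, isNil])
  · cases hB : B with
    | nil => rw [hB] at hf; exact absurd hf (by simp [W, app, fb, isNil])
    | node _ C D =>
      rw [W, fb_app (by rw [hB]; simp), h.fB] at hf
      exact absurd hf (by simp)
  · cases hB : B with
    | nil =>
      rw [hB] at e
      exact Or.inr (Or.inl ⟨rfl, (node_inj e).2.symm, Or.inl rfl⟩)
    | node _ C D =>
      rw [W, fb_app (by rw [hB]; simp), h.fB] at hf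
      exact absurd hf (by simp)
  · exact absurd hf (by
      change isNil S ≠ true
      rw [isNil_f.2 h.S0]; simp)
  · rw [W, fb_app h.S0, h.fS] at hf; exact absurd hf (by simp)
  · exact absurd hf (by
      change isNil (app (ch (q + 1)) (.nil △ S)) ≠ true
      rw [isNil_f.2 (app_ne (by simp))]; simp)
  · exact absurd hf (by simp [W, fb, ch, isNil])
  · rw [W, fb_app h.S0, h.fS] at hf; exact absurd hf (by simp)
  · obtain rfl := fb_ch q _ hf
    exact Or.inr (Or.inr ⟨rfl, Or.inr (Or.inr (Or.inr (Or.inr (Or.inr (Or.inl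
      ⟨rfl, (node_inj e).2.symm⟩)))))⟩)
  · obtain rfl := fb_ch q _ hf
    exact Or.inr (Or.inr ⟨rfl, Or.inr (Or.inr (Or.inr (Or.inr (Or.inr (Or.inr (Or.inl
      ⟨rfl, (node_inj e).2.symm⟩))))))⟩)
  · exact absurd hf (by
      change isNil (app S _) ≠ true
      rw [isNil_f.2 (app_ne' h.S0)]; simp)

theorem lastB_node {A Y : BinaryTree Unit} (hA : A ≠ .nil) (hY : lastB Y = false) :
    lastB (A △ Y) = false := by
  cases Y with
  | nil => rw [lastB_one, isNil_f]; exact hA
  | node _ C D => rw [lastB_cons (by simp)]; exact hY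

theorem lastB_Q (q : ℕ) {P : BinaryTree Unit} (h : lastB (app P (ch (q + 1))) = true) : q = 0 := by
  rw [lastB_app (by simp [ch])] at h
  exact lastB_ch q h

theorem lastB_nQ (q : ℕ) {A : BinaryTree Unit} (h : lastB (A △ ch (q + 1)) = true) : q = 0 := by
  rw [lastB_cons (by simp [ch])] at h
  exact lastB_ch q h

/-- words `X()` -/
theorem sh_last (h : Wd R B S) {i : ℕ} (hi : i < 20)
    (e : W R (ch (q + 1)) B S i = app X (.nil △ .nil)) : Sh q R B S X i := by
  have hf : lastB (W R (ch (q + 1)) B S i) = true := by rw [e, lastB_app (by simp)]; rfl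
  have hQ : ch (q + 1) ≠ .nil := by simp [ch]
  interval_cases i
  · -- 0
    rw [W, lastB_app (by simp)] at hf
    exact absurd hf (by simp [lastB, isNil])
  · -- 1
    refine Or.inl ⟨?_, Or.inl rfl⟩
    have e1 : W R (ch (q + 1)) B S 1 = app (app R (.nil △ ch (q + 1))) (.nil △ .nil) := by
      rw [app_assoc]; rfl
    rw [e1] at e
    exact (app_snoc e).1.symm
  · -- 2
    have e0 : W R (ch (q + 1)) B S 2 = app (.nil △ app R (.nil △ .nil)) (ch (q + 1)) := by
      change _ = .nil △ app (app R (.nil △ .nil)) (ch (q + 1))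
      rw [app_assoc]; rfl
    rw [e0] at hf
    obtain rfl := lastB_Q q hf
    rw [e0] at e
    exact Or.inr (Or.inr ⟨rfl, Or.inl ⟨rfl, (app_snoc e).1.symm⟩⟩)
  · -- 3
    rw [W, lastB_one, isNil_iff] at hf
    exact absurd hf (app_ne' h.R0)
  · -- 4
    rw [W, lastB_cons h.R0, h.lR] at hf
    exact absurd hf (by simp)
  · -- 5
    rw [W, lastB_cons (by simp), lastB_cons h.R0, h.lR] at hf
    exact absurd hf (by simp)
  · -- 6
    rw [W, lastB_cons (by simp), lastB_one, isNil_iff] at hf
    exact absurd hf hQ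
  · -- 7
    rw [W, lastB_app (by simp), lastB_one] at hf
    exact absurd hf (by simp [isNil])
  · -- 8
    rw [W, lastB_app (by simp), lastB_cons (by simp), lastB_one, isNil_iff] at hf
    exact absurd hf h.R0
  · -- 9
    obtain rfl := lastB_nQ q hf
    have e1 : W R (ch (0 + 1)) B S 9 = app ((R △ .nil) △ .nil) (.nil △ .nil) := rfl
    rw [e1] at e
    exact Or.inr (Or.inr ⟨rfl, Or.inr (Or.inr (Or.inr (Or.inl ⟨rfl, (app_snoc e).1.symm⟩)))⟩)
  · -- 10
    rw [W, lastB_app (by simp), lastB_cons h.S0, h.lS] at hf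
    exact absurd hf (by simp)
  · -- 11
    rw [W, lastB_app (by simp), lastB_cons (app_ne (by simp)), lastB_app (by simp),
      lastB_cons h.S0, h.lS] at hf
    exact absurd hf (by simp)
  · -- 12
    have e0 : W R (ch (q + 1)) B S 12 = app (S △ app B (.nil △ .nil)) (ch (q + 1)) := by
      change _ = S △ app (app B (.nil △ .nil)) (ch (q + 1))
      rw [app_assoc]; rfl
    rw [e0] at hf
    obtain rfl := lastB_Q q hf
    rw [e0] at e
    exact Or.inr (Or.inr ⟨rfl, Or.inr (Or.inr (Or.inr (Or.inr (Or.inl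
      ⟨rfl, (app_snoc e).1.symm⟩))))⟩)
  · -- 13
    rw [W, lastB_app (by simp), lastB_one, isNil_iff] at hf
    exact absurd hf (app_ne (by simp))
  · -- 14
    rw [W, lastB_node (app_ne (by simp)) h.lB] at hf
    exact absurd hf (by simp)
  · -- 15
    rw [W, lastB_cons (by simp), lastB_node h.S0 h.lB] at hf
    exact absurd hf (by simp)
  · -- 16
    rw [W, lastB_app (by simp), lastB_cons (by simp), lastB_one, isNil_iff] at hf
    exact absurd hf hQ
  · -- 17
    rw [W, lastB_app (by simp), lastB_one] at hf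
    exact absurd hf (by simp [isNil])
  · -- 18
    rw [W, lastB_app (by simp), lastB_cons (app_ne (by simp)), lastB_app (by simp), lastB_one,
      isNil_iff] at hf
    refine Or.inr (Or.inl ⟨hf, ?_, Or.inr (Or.inr rfl)⟩)
    have e1 : W R (ch (q + 1)) B S 18 = app (app (ch (q + 1)) (.nil △ S)) (B △ .nil) := by
      rw [app_assoc]; rfl
    rw [e1, hf] at e
    exact (app_snoc e).1.symm
  · -- 19
    obtain rfl := lastB_nQ q hf
    have e1 : W R (ch (0 + 1)) B S 19 = app (app S (B △ .nil) △ .nil) (.nil △ .nil) := rfl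
    rw [e1] at e
    exact Or.inr (Or.inr ⟨rfl, Or.inr (Or.inr (Or.inr (Or.inr (Or.inr (Or.inr (Or.inr
      ⟨rfl, (app_snoc e).1.symm⟩))))))⟩)

/-- words `(X)` -/
theorem sh_one (h : Wd R B S) {i : ℕ} (hi : i < 20)
    (e : W R (ch (q + 1)) B S i = X △ .nil) : Sh q R B S X i := by
  have hf : len (W R (ch (q + 1)) B S i) = 1 := by rw [e]; rfl
  have hQ : ch (q + 1) ≠ .nil := by simp [ch]
  have l1 := len_pos h.R0
  have l2 := len_pos h.S0
  have l3 := len_pos hQ
  interval_cases i
  · rw [W, len_app] at hf; simp [len] at hf; omega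
  · rw [W, len_app] at hf; simp [len] at hf; omega
  · simp [W, len, len_app] at hf
  · exact Or.inl ⟨(node_inj e).1.symm, Or.inr (Or.inr rfl)⟩
  · simp [W, len] at hf; omega
  · simp [W, len] at hf
  · simp [W, len] at hf
  · rw [W, len_app] at hf; simp [len] at hf; omega
  · rw [W, len_app] at hf; simp [len] at hf
  · simp [W, len] at hf; omega
  · rw [W, len_app] at hf; simp [len] at hf; omega
  · rw [W, len_app] at hf; simp [len, len_app] at hf; omega
  · simp [W, len, len_app] at hf
  · rw [W, len_app] at hf; simp [len] at hf; omega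
  · -- 14
    cases hB : B with
    | nil =>
      rw [hB] at e
      exact Or.inr (Or.inl ⟨rfl, (node_inj e).1.symm, Or.inr (Or.inl rfl)⟩)
    | node _ C D =>
      have l4 := len_pos (P := B) (by rw [hB]; simp)
      simp [W, len] at hf
      omega
  · simp [W, len] at hf
  · rw [W, len_app] at hf; simp [len] at hf
  · rw [W, len_app] at hf; simp [len] at hf; omega
  · rw [W, len_app] at hf; simp [len, len_app] at hf; omega
  · simp [W, len] at hf; omega

/-- **the E-type words of a window** -/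
theorem ae_shape (h : Wd R B S) {i : ℕ} (hi : i < 20)
    (e : W R (ch (q + 1)) B S i = X △ .nil ∨ W R (ch (q + 1)) B S i = app X (.nil △ .nil) ∨
      W R (ch (q + 1)) B S i = .nil △ X) : Sh q R B S X i := by
  rcases e with e | e | e
  · exact sh_one h hi e
  · exact sh_last h hi e
  · exact sh_fst h hi e

/-! ### The first heavy component -/

/-- height of the inside of the first component that is not `()` -/
def fh : BinaryTree Unit → ℕ
  | .nil => 0
  | .node _ A Y => if isNil A = true then fh Y else OddHC.ht A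

theorem fh_leaf (Y : BinaryTree Unit) : fh (.nil △ Y) = fh Y := rfl

theorem fh_node {A : BinaryTree Unit} (hA : A ≠ .nil) (Y : BinaryTree Unit) :
    fh (A △ Y) = OddHC.ht A := by
  rw [fh, isNil_f.2 hA]
  rfl

theorem fh_lv (n : ℕ) (t : BinaryTree Unit) : fh (lv n t) = fh t := by
  induction n with
  | zero => rfl
  | succ n ih => rw [lv, fh_leaf, ih]

theorem fh_app {P : BinaryTree Unit} (h : fh P ≠ 0) (Q : BinaryTree Unit) :
    fh (app P Q) = fh P := by
  induction P with
  | nil => exact absurd rfl h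
  | node u A Y _ ih =>
    cases A with
    | nil =>
      change fh (.nil △ app Y Q) = _
      rw [fh_leaf]
      exact ih h
    | node _ C D => rfl

theorem ht_ins_bump (A : BinaryTree Unit) {a : List ℕ} (ha : a.length = 2 * A.numNodes + 1) :
    OddHC.ht (ins A (bump A a)) = OddHC.ht A + 1 := by
  have ha0 : a ≠ [] := by
    rintro rfl
    simp at ha
  rw [OddHC.ht_eq, cont_ins A _ (by rw [bump_length ha0, ha]), sum_bump ha0]
  cases A with
  | nil =>
    rw [cont_nil, Multiset.map_zero, zero_add, leaf]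
    apply le_antisymm
    · apply Multiset.sup_le.2
      intro b hb
      rw [Multiset.eq_of_mem_replicate hb]
      rw [OddHC.ht]
    · rw [OddHC.ht]
      exact Multiset.le_sup (Multiset.mem_replicate.2 ⟨by omega, rfl⟩)
  | node u C D =>
    obtain ⟨t, ht0⟩ : ∃ t, t = BinaryTree.node u C D := ⟨_, rfl⟩
    rw [← ht0]
    have hn : t ≠ .nil := by rw [ht0]; simp
    rw [sup_add', OddHC.ht_eq]
    have hM : cont t ≠ 0 := fun h => hn (cont_eq_zero.1 h)
    have hs : ((cont t).map (· + 1)).sup = (cont t).sup + 1 := by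
      apply le_antisymm
      · apply Multiset.sup_le.2
        intro b hb
        obtain ⟨c, hc, rfl⟩ := Multiset.mem_map.1 hb
        exact Nat.succ_le_succ (Multiset.le_sup hc)
      · exact Multiset.le_sup (Multiset.mem_map.2 ⟨_, sup_mem hM, rfl⟩)
    have hr : (Multiset.replicate (a.sum + leaf t) 1 : Multiset ℕ).sup ≤ 1 := by
      apply Multiset.sup_le.2
      intro b hb
      rw [Multiset.eq_of_mem_replicate hb]
    rw [hs]
    exact max_eq_left (hr.trans (by omega))

theorem fh_ins {A Y : BinaryTree Unit} {e : List ℕ} (he : e.length = 2 * (A △ Y).numNodes + 1) :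
    fh (ins (A △ Y) e) = OddHC.ht A + 1 := by
  obtain ⟨n, a, b, h1, h2, h3, h4, h5⟩ := split_e he
  rw [ins, h4, h5, fh_lv, fh_node (ins_ne_nil A a), ht_ins_bump A h2]

theorem count_ins {r : BinaryTree Unit} {e : List ℕ} (he : e.length = 2 * r.numNodes + 1) (b : ℕ) :
    (cont (ins r e)).count (b + 2) = (cont r).count (b + 1) := by
  rw [cont_ins r e he, Multiset.count_add, Multiset.count_replicate, if_neg (by omega), add_zero]
  exact Multiset.count_map_eq_count' _ _ (fun x y h => Nat.succ_injective h) _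

/-- the E-rule in terms of `X = ins r e` -/
theorem low_fh {r : BinaryTree Unit} {e : List ℕ} (he : e.length = 2 * r.numNodes + 1)
    (hL : Low r) : (1 ≤ (cont (ins r e)).count 2 → fh (ins r e) = 1) ∧
      ((cont (ins r e)).count 2 = 0 → 1 ≤ (cont (ins r e)).count 3 → fh (ins r e) = 2) := by
  rw [count_ins he 0, count_ins he 1]
  constructor
  · intro h
    obtain ⟨r', hr⟩ := hL.1 h
    subst hr
    rw [fh_ins he]
    rfl
  · intro h h'
    obtain ⟨r', hr⟩ := hL.2 h h'
    subst hr
    rw [fh_ins he]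
    rfl

/-! ### The data of a node -/

/-- what is needed of the contents and heights -/
structure We (q a : ℕ) (R B S : BinaryTree Unit) : Prop where
  hR : 4 ≤ OddHC.ht R
  hS : 4 ≤ OddHC.ht S
  fR : q + 2 ≤ fh R
  fS : 2 ≤ fh S
  cR : 1 ≤ a → 1 ≤ (cont R).count 2
  cS : 1 ≤ a → 1 ≤ (cont S).count 2

theorem count_two_raise {M : Multiset ℕ} (h : 3 ≤ M.sup) : (raise M).count 2 = M.count 2 :=
  count_raise 2 (by omega) (by omega)

/-- **A against E** -/
theorem ae_core (h : Wd R B S) (g : We q a R B S) {r : BinaryTree Unit} {e : List ℕ}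
    (he : e.length = 2 * r.numNodes + 1) (hL : Low r) {i : ℕ} (hi : i < 20)
    (hw : W R (ch (q + 1)) B S i = ins r e △ .nil ∨
      W R (ch (q + 1)) B S i = app (ins r e) (.nil △ .nil) ∨
      W R (ch (q + 1)) B S i = .nil △ ins r e) (hc : 1 ≤ a ∨ q = 1 ∨ q = 2) :
    B = .nil ∧ ins r e = app (ch (q + 1)) (.nil △ S) ∧ (i = 11 ∨ i = 14 ∨ i = 18) ∧
      (q = 1 ∨ (q = 2 ∧ a = 0)) := by
  obtain ⟨l1, l2⟩ := low_fh he hL
  have hs := ae_shape h hi hw
  generalize ins r e = X at l1 l2 hs
  have kR := g.fR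
  have kS := g.fS
  have htR := g.hR
  have htS := g.hS
  have cR := g.cR
  have cS := g.cS
  have sR : (cont R).sup = OddHC.ht R := (OddHC.ht_eq R).symm
  have sS : (cont S).sup = OddHC.ht S := (OddHC.ht_eq S).symm
  rcases hs with ⟨rfl, h1⟩ | ⟨h0, rfl, h1⟩ | ⟨rfl, h1⟩
  · -- `X = R()Q`
    exfalso
    rw [fh_app (by omega), cont_app, cont_node, cont_nil, raise_zero, ch_cont] at l1 l2
    simp only [Multiset.count_add] at l1 l2
    rcases hc with hc | rfl | rfl
    · have := l1 (by have := cR hc; omega)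
      omega
    · have e1 : Multiset.count 2 ({1 + 1} : Multiset ℕ) = 1 := rfl
      have := l1 (by omega)
      omega
    · have e1 : Multiset.count 3 ({2 + 1} : Multiset ℕ) = 1 := rfl
      have e2 : Multiset.count 2 ({2 + 1} : Multiset ℕ) = 0 := rfl
      have e3 : Multiset.count 2 ({1} : Multiset ℕ) = 0 := rfl
      by_cases h2 : 1 ≤ (cont R).count 2
      · have := l1 (by omega)
        omega
      · have := l2 (by omega) (by omega)
        omega
  · -- `X = Q()S`
    refine ⟨h0, rfl, h1, ?_⟩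
    by_cases ha : 1 ≤ a
    · left
      have h2 := l1 (by
        rw [cont_app, cont_node, Multiset.count_add, Multiset.count_add]
        have := cS ha
        omega)
      cases q with
      | zero =>
        change fh (.nil △ (.nil △ S)) = 1 at h2
        rw [fh_leaf, fh_leaf] at h2
        omega
      | succ q =>
        change fh ((ch q △ .nil) △ (.nil △ S)) = 1 at h2
        rw [fh_node (by simp), OddHC.ht_node, ch_ht, OddHC.ht] at h2
        omega
    · rcases hc with hc | hc | hc
      · omega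
      · exact Or.inl hc
      · exact Or.inr ⟨hc, by omega⟩
  · -- `Q = ()`
    exfalso
    have ha : 1 ≤ a := by omega
    have c1 := cR ha
    have c2 := cS ha
    rcases h1 with ⟨-, rfl⟩ | ⟨-, rfl⟩ | ⟨-, rfl⟩ | ⟨-, rfl⟩ | ⟨-, rfl⟩ | ⟨-, rfl⟩ | ⟨-, rfl⟩ | ⟨-, rfl⟩
    · have h2 := l1 (by
        rw [cont_node, cont_app, Multiset.count_add, Multiset.count_add]
        omega)
      rw [fh_leaf, fh_app (by omega)] at h2
      omega
    · have h2 := l1 (by
        rw [cont_node, cont_node, cont_nil, raise_zero, add_zero, count_two_raise, Multiset.count_add]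
        · omega
        · rw [sup_add', sR]; omega)
      rw [fh_node (by simp), OddHC.ht_node] at h2
      omega
    · have h2 := l1 (by
        rw [cont_node, cont_node, cont_nil, raise_zero, add_zero, Multiset.count_add,
          count_two_raise (by rw [sR]; omega)]
        omega)
      rw [fh_leaf, fh_node h.R0] at h2
      omega
    · have h2 := l1 (by
        rw [cont_node, cont_node, cont_nil, add_zero, add_zero,
          count_two_raise (by rw [sup_raise, sR]; omega), count_two_raise (by rw [sR]; omega)]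
        omega)
      rw [fh_node (by simp), OddHC.ht_node] at h2
      omega
    · have h2 := l1 (by
        rw [cont_node, Multiset.count_add, count_two_raise (by rw [sS]; omega)]
        omega)
      rw [fh_node h.S0] at h2
      omega
    · have h2 := l1 (by
        rw [cont_node, cont_node, cont_nil, add_zero, count_two_raise
          (by rw [sup_add', sup_raise, sS]; omega), Multiset.count_add,
          count_two_raise (by rw [sS]; omega)]
        omega)
      rw [fh_node (by simp), OddHC.ht_node] at h2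
      omega
    · have h2 := l1 (by
        rw [cont_node, cont_app, Multiset.count_add, Multiset.count_add]
        omega)
      rw [fh_leaf, fh_app (by omega)] at h2
      omega
    · have h2 := l1 (by
        rw [cont_node, cont_nil, add_zero, count_two_raise (by rw [cont_app, sup_add', sS]; omega),
          cont_app, Multiset.count_add]
        omega)
      rw [fh_node (app_ne' h.S0), ht_app] at h2
      omega

/-! ### Nodes -/

theorem sq_last {H : BinaryTree Unit} (hs : hv s) (hs0 : s ≠ .nil)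
    (hH : bl H = true) (ht1 : Tsq.ht B1 < Tsq.ht s + 1) (ht2 : Tsq.ht B ≤ Tsq.ht s + 1) :
    lastB (Tsq.sq (app B1 (app H s △ B))).1 = false := by
  have hH2 := bl_ht hH
  have hs3 := hv_ht hs hs0
  obtain ⟨X, Y, g, g1, g2, g3⟩ := sq_hv hs hs0
  have e1 : Tsq.ht (app H s) = Tsq.ht s := by rw [Tsq.ht_app]; omega
  have e2 : Tsq.sq (app H s) = (app H X △ Y, (Tsq.sq s).2) := by
    rw [Tsq.sq_pre H s (by omega), g.e]
    rfl
  have e3 : Tsq.sq (app H s △ B) = ((app H X △ Y) △ (Tsq.sq s).2, B) := by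
    rw [Tsq.sq_ge (app_ne hs0) (by omega), e2]
  have e4 : Tsq.sq (app B1 (app H s △ B)) = (app B1 (app H X △ Y) △ (Tsq.sq s).2, B) := by
    rw [Tsq.sq_pre B1 _ (by rw [Tsq.ht_node]; omega), e3]
    rfl
  rw [e4]
  exact lastB_node (app_ne (by simp)) g.l2

theorem PB_ne {A : BinaryTree Unit} (h : PB A = true) : A ≠ .nil := by
  rintro rfl
  exact absurd h (by simp [PB])

theorem NodeA.heavy (h : NodeA k q a m R0 B1 s B) : hv B1 ∧ (hv s ∧ s ≠ .nil) ∧ hv B := by
  have g := hv_of_cont h.part3
  rw [h.tall.eq, hv_app, hv_node] at g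
  obtain ⟨g1, g2, g3⟩ := g
  have t1 := h.tall.top
  have h4 := h.four
  refine ⟨g1, ?_, g3⟩
  rcases g2 with rfl | g2
  · have e : OddHC.ht (((.nil : BinaryTree Unit) △ .nil) △ .nil) = 2 := rfl
    omega
  · exact ⟨g2.2, g2.1⟩

theorem NodeA.wd (h : NodeA k q a m R0 B1 s B) :
    Wd (nR B1 s B a m) B (Tsq.sq (nR B1 s B a m)).1 := by
  obtain ⟨k1, k2⟩ := node_adm (q := q) h.tall h.part3 h.four h.pos
  obtain ⟨v1, v2, v3⟩ := h.heavy
  have t1 := h.tall.top
  have t2 := h.tall.low
  have t3 : OddHC.ht B ≤ OddHC.ht R0 := by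
    rw [h.tall.eq, ht_app, OddHC.ht_node]
    omega
  obtain ⟨B1', P, w1, w2, w3, w4⟩ := k2.hR
  obtain ⟨B1'', F, Y, β, x1, x2, x3, x4⟩ := k2.hS
  have hP := PB_ne w2
  refine ⟨?_, ?_, ?_, hv_fb v3, hv_last v3, ?_, ?_, ?_⟩
  · rw [w4]
    exact app_ne (by simp)
  · rw [w4]
    cases B1' with
    | nil => exact isNil_f.2 hP
    | node _ C D => rw [fb_app (by simp)]; exact hv_fb w1
  · rw [w4, lastB_app (by simp)]
    exact lastB_node hP (hv_last v3)
  · rw [x4]
    simp
  · rw [x4]
    exact isNil_f.2 (app_ne (by simp))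
  · rw [nR_eq]
    exact sq_last v2.1 v2.2 (bl_H a m) (by rw [ht_eq, ht_eq]; omega) (by rw [ht_eq, ht_eq]; omega)

theorem NodeA.we (h : NodeA k q a m R0 B1 s B) :
    We q a (nR B1 s B a m) B (Tsq.sq (nR B1 s B a m)).1 := by
  obtain ⟨k1, k2⟩ := node_adm (q := q) h.tall h.part3 h.four h.pos
  obtain ⟨v1, v2, v3⟩ := h.heavy
  have t1 := h.tall.top
  have t2 := h.tall.low
  have h4 := h.four
  have hR := h.ht
  have hd := h.dat
  obtain ⟨B1'', F, Y, β, x1, x2, x3, x4⟩ := k2.hS
  have hF := PB_ne x2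
  have hF' := ht_pos hF
  have s3 : 3 ≤ OddHC.ht s := by omega
  have hP : OddHC.ht (lv m (lv2 a s)) = OddHC.ht s := ht_H a m s (by omega)
  have hP0 : lv m (lv2 a s) ≠ .nil := by
    intro e
    rw [e, OddHC.ht] at hP
    omega
  have hq : q + 3 ≤ OddHC.ht R0 := by
    have := hd.big
    omega
  have cR : 1 ≤ a → 1 ≤ (cont (nR B1 s B a m)).count 2 := by
    intro ha
    unfold nR
    rw [cont_app, cont_node, Multiset.count_add, Multiset.count_add,
      count_two_raise (by rw [← OddHC.ht_eq, hP]; omega), cont_lv, cont_lv2, Multiset.count_add,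
      Multiset.count_add, Multiset.count_replicate_self]
    omega
  refine ⟨by omega, by rw [hd.htS]; omega, ?_, ?_, cR, ?_⟩
  · unfold nR
    cases hB1 : B1 with
    | nil =>
      rw [app, fh_node hP0]
      omega
    | node u C D =>
      rw [hB1] at v1
      have hC := gd_ne v1.1
      change q + 2 ≤ fh (C △ app D _)
      rw [fh_node hC]
      have hmem : OddHC.ht C + 1 ∈ cont R0 := by
        rw [h.tall.eq, hB1, cont_app, cont, OddHC.ht_eq]
        exact Multiset.mem_add.2 (Or.inl (Multiset.mem_add.2 (Or.inl (Multiset.mem_cons_self _ _))))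
      have := h.part _ hmem
      omega
  · rw [x4, fh_node (app_ne (by simp)), ht_app, OddHC.ht_node]
    omega
  · intro ha
    have h1 := cR ha
    rw [← hd.cont, Multiset.count_add] at h1
    have h2 : (cont B).count 2 = 0 := by
      apply Multiset.count_eq_zero_of_notMem
      intro hx
      have := hd.bare 2 hx
      omega
    omega

/-- **A against E**: the words of a node of type A are not words of an E-triple over a word with the E-rule, except
the complete triple of `Q()S` if `B` is empty and `q = 1`, or `q = 2`, `a = 0` -/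
theorem NodeA.ae (h : NodeA k q a m R0 B1 s B) {r : BinaryTree Unit} {e : List ℕ}
    (he : e.length = 2 * r.numNodes + 1) (hL : Low r) (w0 : OddHC.X k) {i : ℕ} (hi : i < 20)
    (hw : (nX q a m B1 s B w0 i).1 = ins r e △ .nil ∨
      (nX q a m B1 s B w0 i).1 = app (ins r e) (.nil △ .nil) ∨
      (nX q a m B1 s B w0 i).1 = .nil △ ins r e) (hc : 1 ≤ a ∨ q = 1 ∨ q = 2) :
    B = .nil ∧ ins r e = app (ch (q + 1)) (.nil △ (Tsq.sq (nR B1 s B a m)).1) ∧
      (i = 11 ∨ i = 14 ∨ i = 18) ∧ (q = 1 ∨ (q = 2 ∧ a = 0)) := by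
  rw [h.word w0 hi] at hw
  exact ae_core h.wd h.we he hL hi hw hc

end H1

end Pool.OddHC
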