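import Pool.Agent.Work.MP_8f87b2_h71ae.AEG
import Pool.Agent.Work.MP_8f87b2_mid.Types

/-!
MP_8f87b2_co: windows of type A against the plain triples of type L and E, as statements on gadgets.
-/

set_option autoImplicit false

namespace Pool.OddHC

open BinaryTree

variable {k : ℕ} {F F' : Set (Cyc k)} {g g' : DG k}

namespace H1

theorem fb_lv0 {t : BinaryTree Unit} {e : List ℕ} (ht : t ≠ .nil)
    (he : e.length = 2 * t.numNodes + 1) (h0 : e.headD 0 = 0) : fb (ins t e) = false := by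
  cases t with
  | nil => exact absurd rfl ht
  | node u A B =>
    obtain ⟨n, a, b, h1, h2, h3, h4, h5⟩ := split_e he
    change fb (ins (A △ B) e) = false
    rw [ins, h4, h5, h0, lv]
    exact isNil_f.2 (ins_ne_nil A a)

theorem lastB_lv (n : ℕ) {t : BinaryTree Unit} (ht : t ≠ .nil) : lastB (lv n t) = lastB t := by
  induction n with
  | zero => rfl
  | succ n ih =>
    rw [lv, lastB_cons, ih]
    cases n with
    | zero => exact ht
    | succ n => rw [lv]; simp

theorem lastB_ins {t : BinaryTree Unit} : ∀ {e : List ℕ}, t ≠ .nil →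
    e.length = 2 * t.numNodes + 1 → e.getLastD 0 = 0 → lastB (ins t e) = false := by
  induction t with
  | nil => intro e h; exact absurd rfl h
  | node u A B _ ih =>
    intro e _ he h0
    obtain ⟨n, a, b, h1, h2, h3, h4, h5⟩ := split_e he
    change lastB (ins (A △ B) e) = false
    rw [ins, h4, h5, lastB_lv _ (by simp)]
    have hb : b.getLastD 0 = 0 := by
      have hb0 : b ≠ [] := by
        rintro rfl
        simp at h3
      rw [h1] at h0
      rw [List.getLastD_eq_getLast?] at h0 ⊢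
      rw [List.getLast?_cons, List.getLast?_append_of_ne_nil _ hb0] at h0
      obtain ⟨x, hx⟩ : ∃ x, b.getLast? = some x := ⟨b.getLast hb0, List.getLast?_eq_getLast_of_ne_nil hb0⟩
      rw [hx] at h0 ⊢
      simpa using h0
    cases B with
    | nil =>
      have hl : b.length = 1 := h3
      obtain ⟨x, rfl⟩ := List.length_eq_one_iff.1 hl
      have hx : x = 0 := by simpa using hb
      subst hx
      change lastB (ins A (bump A a) △ .nil) = false
      rw [lastB_one]
      exact isNil_f.2 (ins_ne_nil A a)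
    | node v C D =>
      have hn : ins (.node v C D) b ≠ .nil := by
        change ins (C △ D) b ≠ .nil
        rw [ins]
        cases b.headD 0 with
        | zero => simp [lv]
        | succ x => simp [lv]
      rw [lastB_cons hn]
      exact ih (by simp) h3 hb

end H1

/-- A against a triple `()(T)()`, `T(())()`, `()(())T` -/
theorem TyA.disj_L {T : BinaryTree Unit} (h : TyA F g) (h' : IsTri (lp 1) T (lp 1) F' g')
    (hT : T ≠ .nil) (hf : H1.fb T = false) (hl : H1.lastB T = false) :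
    ∀ w ∈ g.B, w ∉ g'.B := by
  obtain ⟨q, B1, H, s, B, w0, h1, rfl, rfl⟩ := h
  intro w hw hw'
  obtain ⟨i, hi, rfl⟩ := mem_gad20.1 hw
  obtain ⟨k1, k2, k3⟩ := h1.al hT hf hl w0 hi
  rcases h'.words _ hw' with e | ⟨_, e | e⟩
  · exact k1 e
  · exact k2 e
  · exact k3 e

/-- A against an L-triple with no extra in the first and in the last gap -/
theorem TyA.disj_L' {R' : BinaryTree Unit} {e : List ℕ} (h : TyA F g)
    (h' : IsTri (lp 1) (ins R' e) (lp 1) F' g') (hR : R' ≠ .nil)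
    (he : e.length = 2 * R'.numNodes + 1) (h0 : e.headD 0 = 0) (h1 : e.getLastD 0 = 0) :
    ∀ w ∈ g.B, w ∉ g'.B := by
  refine h.disj_L h' ?_ (H1.fb_lv0 hR he h0) (H1.lastB_ins hR he h1)
  cases R' with
  | nil => exact absurd rfl hR
  | node u C D =>
    change ins (C △ D) e ≠ .nil
    rw [ins]
    cases e.headD 0 with
    | zero => simp [lv]
    | succ x => simp [lv]

/-- A against E for a general node: a common word only for `B` empty, `c = 4`, or `c = 5` and no part `2` -/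
theorem NodeG_disj_E {q : ℕ} {B1 H s B : BinaryTree Unit} (h : H1.NodeG k q B1 H s B)
    (hB1 : ∀ x ∈ cont B1, q + 3 ≤ x)
    (hc : 1 ≤ (cont (H1.gR B1 H s B)).count 2 ∨
      (1 ≤ q ∧ (q ≤ 2 ∨ 1 ≤ (cont (H1.gR B1 H s B)).count 3)))
    (h' : TyE F' g') (w0 w : X k) (hw : w ∈ (gad20 (H1.gX q B1 H s B w0)).B) (hw' : w ∈ g'.B) :
    B = .nil ∧ (q = 1 ∨ (q = 2 ∧ (cont (H1.gR B1 H s B)).count 2 = 0)) ∧
      (w = H1.gX q B1 H s B w0 11 ∨ w = H1.gX q B1 H s B w0 14 ∨
        w = H1.gX q B1 H s B w0 18) := by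
  obtain ⟨j, r, f, hj, hL, ht⟩ := h'
  obtain ⟨i, hi, rfl⟩ := mem_gad20.1 hw
  have he : (lf f).length = 2 * r.1.numNodes + 1 := by rw [lf_length, X_num]
  have hww : (H1.gX q B1 H s B w0 i).1 = ins r.1 (lf f) △ .nil ∨
      (H1.gX q B1 H s B w0 i).1 = app (ins r.1 (lf f)) (.nil △ .nil) ∨
      (H1.gX q B1 H s B w0 i).1 = .nil △ ins r.1 (lf f) := by
    rcases ht.words _ hw' with e | ⟨_, e | e⟩
    · exact Or.inl e
    · exact Or.inr (Or.inl e)
    · exact Or.inr (Or.inr e)
  obtain ⟨k1, -, k3, k4⟩ := h.ae hB1 hc he hL w0 hi hww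
  refine ⟨k1, k4, ?_⟩
  rcases k3 with rfl | rfl | rfl
  · exact Or.inl rfl
  · exact Or.inr (Or.inl rfl)
  · exact Or.inr (Or.inr rfl)

/-- A against E: disjoint if `B` is not empty, or `c = 3`, or `c ≥ 6`, or `c = 5` with a part `2` -/
theorem NodeG_disj_E' {q : ℕ} {B1 H s B : BinaryTree Unit} (h : H1.NodeG k q B1 H s B)
    (hB1 : ∀ x ∈ cont B1, q + 3 ≤ x)
    (hc : 1 ≤ (cont (H1.gR B1 H s B)).count 2 ∨
      (1 ≤ q ∧ (q ≤ 2 ∨ 1 ≤ (cont (H1.gR B1 H s B)).count 3)))
    (h' : TyE F' g') (w0 : X k)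
    (hn : B ≠ .nil ∨ (q ≠ 1 ∧ (q ≠ 2 ∨ 1 ≤ (cont (H1.gR B1 H s B)).count 2))) :
    ∀ w ∈ (gad20 (H1.gX q B1 H s B w0)).B, w ∉ g'.B := by
  intro w hw hw'
  obtain ⟨k1, k2, -⟩ := NodeG_disj_E h hB1 hc h' w0 w hw hw'
  rcases hn with h1 | ⟨h1, h2⟩
  · exact h1 k1
  · rcases k2 with k2 | ⟨k2, k3⟩
    · exact h1 k2
    · rcases h2 with h2 | h2
      · exact h2 k2
      · omega

end Pool.OddHC
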