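import Pool.Agent.Work.MP_8f87b2_h71ae.AL
import Pool.Agent.Work.MP_8f87b2_h71.H1Gen

/-!
MP_8f87b2_co: `NodeG` windows (two levels with `a ≥ 1`, three levels) against the E-triples (E-rule) and the L-triples.
-/

set_option autoImplicit false

namespace Pool.OddHC

open BinaryTree

namespace H1

variable {k q a t m : ℕ} {R B S T : BinaryTree Unit} {B1 H s : BinaryTree Unit}

/-- contents and heights, with the parts `3` -/
structure We3 (q a t : ℕ) (R B S : BinaryTree Unit) : Prop extends We q a R B S where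
  c3R : 1 ≤ t → 1 ≤ (cont R).count 3
  c3S : 1 ≤ t → 1 ≤ (cont S).count 3

/-- **A against E**, general -/
theorem ae_core3 (h : Wd R B S) (g : We3 q a t R B S) {r : BinaryTree Unit} {e : List ℕ}
    (he : e.length = 2 * r.numNodes + 1) (hL : Low r) {i : ℕ} (hi : i < 20)
    (hw : W R (ch (q + 1)) B S i = ins r e △ .nil ∨
      W R (ch (q + 1)) B S i = app (ins r e) (.nil △ .nil) ∨
      W R (ch (q + 1)) B S i = .nil △ ins r e)
    (hc : 1 ≤ a ∨ (1 ≤ q ∧ (q ≤ 2 ∨ 1 ≤ t))) :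
    B = .nil ∧ ins r e = app (ch (q + 1)) (.nil △ S) ∧ (i = 11 ∨ i = 14 ∨ i = 18) ∧
      (q = 1 ∨ (q = 2 ∧ a = 0)) := by
  by_cases h3 : 1 ≤ a ∨ q = 1 ∨ q = 2
  · exact ae_core h g.toWe he hL hi hw h3
  · exfalso
    push Not at h3
    obtain ⟨a0, q1, q2⟩ := h3
    have hq : 3 ≤ q := by omega
    have ht1 : 1 ≤ t := by omega
    obtain ⟨l1, l2⟩ := low_fh he hL
    have hs := ae_shape h hi hw
    generalize ins r e = X at l1 l2 hs
    have kR := g.fR
    have c3R := g.c3R ht1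
    have c3S := g.c3S ht1
    rcases hs with ⟨rfl, h1⟩ | ⟨h0, rfl, h1⟩ | ⟨rfl, h1⟩
    · have e1 : fh (app R (.nil △ ch (q + 1))) = fh R := fh_app (by omega) _
      rw [e1] at l1 l2
      by_cases h4 : 1 ≤ (cont (app R (.nil △ ch (q + 1)))).count 2
      · have := l1 h4
        omega
      · have := l2 (by omega) (by rw [cont_app, Multiset.count_add]; omega)
        omega
    · have e1 : fh (app (ch (q + 1)) (.nil △ S)) = q := by
        obtain ⟨p, rfl⟩ : ∃ p, q = p + 1 := ⟨q - 1, by omega⟩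
        change fh ((ch p △ .nil) △ (.nil △ S)) = p + 1
        rw [fh_node (by simp), OddHC.ht_node, ch_ht, OddHC.ht]
        omega
      rw [e1] at l1 l2
      by_cases h4 : 1 ≤ (cont (app (ch (q + 1)) (.nil △ S))).count 2
      · have := l1 h4
        omega
      · have := l2 (by omega) (by
          rw [cont_app, cont_node, Multiset.count_add, Multiset.count_add]
          omega)
        omega
    · omega

theorem NodeG.wd (h : NodeG k q B1 H s B) : Wd (gR B1 H s B) B (Tsq.sq (gR B1 H s B)).1 := by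
  obtain ⟨k1, k2⟩ := h.sq
  obtain ⟨B1', P, w1, w2, w3, w4⟩ := k2.hR
  obtain ⟨B1'', F, Y, β, x1, x2, x3, x4⟩ := k2.hS
  have hP := PB_ne w2
  refine ⟨?_, ?_, ?_, hv_fb h.hB, hv_last h.hB, ?_, ?_, ?_⟩
  · rw [w4]
    exact app_ne (by simp)
  · rw [w4]
    cases B1' with
    | nil => exact isNil_f.2 hP
    | node _ C D => rw [fb_app (by simp)]; exact hv_fb w1
  · rw [w4, lastB_app (by simp)]
    exact lastB_node hP (hv_last h.hB)
  · rw [x4]
    simp
  · rw [x4]
    exact isNil_f.2 (app_ne (by simp))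
  · exact sq_last h.hs h.s0 h.light (by rw [ht_eq, ht_eq]; exact h.low)
      (by rw [ht_eq, ht_eq]; exact h.top)

theorem NodeG.P_ht (h : NodeG k q B1 H s B) : OddHC.ht (app H s) = OddHC.ht s := by
  have h1 : OddHC.ht H ≤ 2 := by rw [← ht_eq]; exact bl_ht h.light
  have h2 := h.hs3
  rw [ht_app]
  omega

/-- the first component of `R` -/
theorem NodeG.fR (h : NodeG k q B1 H s B) (hB1 : ∀ x ∈ cont B1, q + 3 ≤ x) :
    q + 2 ≤ fh (gR B1 H s B) := by
  unfold gR
  cases hb : B1 with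
  | nil =>
    rw [app, fh_node (app_ne h.s0), h.P_ht]
    have := h.big
    omega
  | node u C D =>
    have v1 := h.h1
    rw [hb] at v1
    have hC := gd_ne v1.1
    change q + 2 ≤ fh (C △ app D _)
    rw [fh_node hC]
    have hmem : OddHC.ht C + 1 ∈ cont B1 := by
      rw [hb, cont, OddHC.ht_eq]
      exact Multiset.mem_add.2 (Or.inl (Multiset.mem_cons_self _ _))
    have := hB1 _ hmem
    omega

theorem NodeG.fS (h : NodeG k q B1 H s B) : 2 ≤ fh (Tsq.sq (gR B1 H s B)).1 := by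
  obtain ⟨k1, k2⟩ := h.sq
  obtain ⟨B1'', F, Y, β, x1, x2, x3, x4⟩ := k2.hS
  have hF := PB_ne x2
  have hF' := ht_pos hF
  rw [x4, fh_node (app_ne (by simp)), ht_app, OddHC.ht_node]
  omega

theorem NodeG.cS (h : NodeG k q B1 H s B) {b : ℕ} (hb : b < q + 3)
    (hR : 1 ≤ (cont (gR B1 H s B)).count b) : 1 ≤ (cont (Tsq.sq (gR B1 H s B)).1).count b := by
  have hd := h.dat
  rw [← hd.cont, Multiset.count_add] at hR
  have h2 : (cont B).count b = 0 := by
    apply Multiset.count_eq_zero_of_notMem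
    intro hx
    have := hd.bare b hx
    omega
  omega

/-- `a` = number of `(())` in the marker, `t` = number of parts `3` of `R`, for `q ≥ 1` -/
theorem NodeG.we3 (h : NodeG k q B1 H s B) (hB1 : ∀ x ∈ cont B1, q + 3 ≤ x)
    (ha : 1 ≤ a → 1 ≤ (cont (gR B1 H s B)).count 2)
    (ht : 1 ≤ t → 1 ≤ q ∧ 1 ≤ (cont (gR B1 H s B)).count 3) :
    We3 q a t (gR B1 H s B) B (Tsq.sq (gR B1 H s B)).1 := by
  have h1 := h.hs3
  have h2 := h.ht
  refine ⟨⟨by omega, by rw [h.dat.htS]; omega, h.fR hB1, h.fS, ha, ?_⟩, fun x => (ht x).2, ?_⟩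
  · intro x
    exact h.cS (by omega) (ha x)
  · intro x
    obtain ⟨x1, x2⟩ := ht x
    exact h.cS (by omega) x2

theorem NodeG.wm (h : NodeG k q B1 H s B) : Wm (gR B1 H s B) (Tsq.sq (gR B1 H s B)).1 := by
  refine ⟨?_, ?_⟩
  · intro Y hY
    have h2 : OddHC.ht ((.nil : BinaryTree Unit) △ .nil) = 1 := rfl
    have h3 : fh (gR B1 H s B) = 1 := by rw [hY, fh_node (by simp)]; rfl
    have h4 : 2 ≤ fh (gR B1 H s B) := by
      unfold gR
      cases hb : B1 with
      | nil =>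
        rw [app, fh_node (app_ne h.s0), h.P_ht]
        have := h.hs3
        omega
      | node u C D =>
        have v1 := h.h1
        rw [hb] at v1
        have hC := gd_ne v1.1
        change 2 ≤ fh (C △ app D _)
        rw [fh_node hC]
        rcases v1.1 with rfl | ⟨h5, h6⟩
        · rw [OddHC.ht, OddHC.ht, OddHC.ht]
          omega
        · rw [← ht_eq]
          have := hv_ht h6 h5
          omega
    omega
  · exact sq_lastI h.hs h.s0 h.light (by rw [ht_eq, ht_eq]; exact h.low)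
      (by rw [ht_eq, ht_eq]; exact h.top)

/-- **A against E** for a general node: `a ≥ 1`, or `q ≥ 1` and (`q ≤ 2` or a part `3`) -/
theorem NodeG.ae (h : NodeG k q B1 H s B) (hB1 : ∀ x ∈ cont B1, q + 3 ≤ x)
    (hc : 1 ≤ (cont (gR B1 H s B)).count 2 ∨
      (1 ≤ q ∧ (q ≤ 2 ∨ 1 ≤ (cont (gR B1 H s B)).count 3)))
    {r : BinaryTree Unit} {e : List ℕ} (he : e.length = 2 * r.numNodes + 1) (hL : Low r)
    (w0 : OddHC.X k) {i : ℕ} (hi : i < 20)
    (hw : (gX q B1 H s B w0 i).1 = ins r e △ .nil ∨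
      (gX q B1 H s B w0 i).1 = app (ins r e) (.nil △ .nil) ∨
      (gX q B1 H s B w0 i).1 = .nil △ ins r e) :
    B = .nil ∧ ins r e = app (ch (q + 1)) (.nil △ (Tsq.sq (gR B1 H s B)).1) ∧
      (i = 11 ∨ i = 14 ∨ i = 18) ∧
      (q = 1 ∨ (q = 2 ∧ (cont (gR B1 H s B)).count 2 = 0)) := by
  rw [h.word w0 hi] at hw
  by_cases h1 : 1 ≤ q
  · exact ae_core3 h.wd (h.we3 (a := (cont (gR B1 H s B)).count 2)
      (t := (cont (gR B1 H s B)).count 3) hB1 (fun x => x) (fun x => ⟨h1, x⟩)) he hL hi hw hc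
  · have h2 : 1 ≤ (cont (gR B1 H s B)).count 2 := by omega
    exact ae_core3 h.wd (h.we3 (a := (cont (gR B1 H s B)).count 2) (t := 0) hB1 (fun x => x)
      (fun x => absurd x (by norm_num))) he hL hi hw (Or.inl h2)

/-- **A against L** for a general node -/
theorem NodeG.al (h : NodeG k q B1 H s B) (hT : T ≠ .nil) (hf : fb T = false)
    (hl : lastB T = false) (w0 : OddHC.X k) {i : ℕ} (hi : i < 20) :
    (gX q B1 H s B w0 i).1 ≠ w1 (lp 1) T (lp 1) ∧ (gX q B1 H s B w0 i).1 ≠ w1 T (lp 1) (lp 1) ∧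
      (gX q B1 H s B w0 i).1 ≠ w1 (lp 1) (lp 1) T := by
  rw [h.word w0 hi]
  exact ⟨al_host h.wd hT hi, al_new2 h.wd h.wm hl hi, al_new1 h.wd h.wm hf hi⟩

end H1

end Pool.OddHC
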