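import Pool.Agent.Work.MP_8f87b2_h71ae.AE
import Pool.Agent.Work.MP_8f87b2_end.LW

/-!
MP_8f87b2_co, H1 windows against the triples of type L: the words `()(T)()`, `T(())()`, `()(())T`, `T` neither starting
nor ending with `()`, are not words of a window.
-/

set_option autoImplicit false

namespace Pool.OddHC

open BinaryTree

namespace H1

variable {k q a m : ℕ} {R B S T : BinaryTree Unit} {R0 B1 s : BinaryTree Unit}

/-- more facts on a window -/
structure Wm (R S : BinaryTree Unit) : Prop where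
  fR2 : ∀ Y, R ≠ (.nil △ .nil) △ Y
  lS2 : lastI S ≠ .nil △ .nil

theorem first_app {P Q A Y : BinaryTree Unit} (hP : P ≠ .nil) (h : app P Q = A △ Y) :
    ∃ Z, P = A △ Z := by
  cases P with
  | nil => exact absurd rfl hP
  | node _ C D => exact ⟨D, by rw [(node_inj h).1]⟩

/-- `()(T)()` -/
theorem al_host (h : Wd R B S) (hT : T ≠ .nil) {i : ℕ} (hi : i < 20) :
    W R (ch (q + 1)) B S i ≠ .nil △ (T △ (.nil △ .nil)) := by
  intro e
  have e' : W R (ch (q + 1)) B S i = app (.nil △ (T △ .nil)) (.nil △ .nil) := e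
  have s1 := sh_fst h hi e
  have s2 := sh_last h hi e'
  rcases s2 with ⟨h1, -⟩ | ⟨h0, h1, -⟩ | ⟨rfl, h1⟩
  · have h2 : fb (app R (.nil △ ch (q + 1))) = true := by rw [← h1]; rfl
    rw [fb_app h.R0, h.fR] at h2
    exact absurd h2 (by simp)
  · have h2 := fb_ch q (.nil △ S) (by rw [← h1]; rfl)
    subst h2
    have h3 := (node_inj (node_inj h1).2).1
    exact hT h3
  · rcases h1 with ⟨i1, h1⟩ | ⟨i1, h1⟩ | ⟨i1, h1⟩ | ⟨i1, h1⟩ | ⟨i1, h1⟩ | ⟨i1, h1⟩ | ⟨i1, h1⟩ | ⟨i1, h1⟩
    · have h2 := congrArg len (node_inj h1).2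
      rw [len_app] at h2
      have h3 := len_pos h.R0
      simp [len] at h2
      omega
    · exact absurd (node_inj h1).1 (by simp)
    · rcases s1 with ⟨-, i2⟩ | ⟨-, -, i2⟩ | ⟨-, h2⟩
      · omega
      · omega
      · rcases h2 with ⟨i2, h2⟩ | ⟨i2, h2⟩ | ⟨i2, h2⟩ | ⟨i2, h2⟩ | ⟨i2, h2⟩ | ⟨i2, h2⟩ | ⟨i2, h2⟩ | ⟨i2, h2⟩
        all_goals first
          | omega
          | exact hT (node_inj h2).1
    · exact absurd (node_inj h1).1 (by simp)
    · exact absurd (node_inj h1).1 (Ne.symm h.S0)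
    · exact absurd (node_inj h1).1 (by simp)
    · rcases s1 with ⟨-, i2⟩ | ⟨-, -, i2⟩ | ⟨-, h2⟩
      · omega
      · -- `B = e`, `i = 18`
        have h2 := (node_inj h1).2
        have h3 := congrArg len h2
        rw [len_app] at h3
        have h4 := len_pos h.S0
        simp [len] at h3
        omega
      · have h2 := (node_inj h1).2
        have h3 := congrArg len h2
        rw [len_app] at h3
        have h4 := len_pos h.S0
        simp [len] at h3
        omega
    · exact absurd (node_inj h1).1 (Ne.symm (app_ne (by simp)))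

/-- `()(())T` -/
theorem al_new1 (h : Wd R B S) (g : Wm R S) (hf : fb T = false) {i : ℕ} (hi : i < 20) :
    W R (ch (q + 1)) B S i ≠ .nil △ ((.nil △ .nil) △ T) := by
  intro e
  rcases sh_fst h hi e with ⟨h1, -⟩ | ⟨h0, h1, -⟩ | ⟨rfl, h1⟩
  · obtain ⟨Z, hZ⟩ := first_app h.R0 h1.symm
    exact g.fR2 Z hZ
  · have h2 : T = .nil △ S := (node_inj h1).2
    rw [h2] at hf
    exact absurd hf (by simp [fb, isNil])
  · have hS : ∀ Y, app S Y ≠ .nil △ .nil := by
      intro Y h2
      have h3 : fb (app S Y) = true := by rw [h2]; rfl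
      rw [fb_app h.S0, h.fS] at h3
      exact absurd h3 (by simp)
    rcases h1 with ⟨-, h1⟩ | ⟨-, h1⟩ | ⟨-, h1⟩ | ⟨-, h1⟩ | ⟨-, h1⟩ | ⟨-, h1⟩ | ⟨-, h1⟩ | ⟨-, h1⟩
    · exact absurd (node_inj h1).1 (by simp)
    · exact h.R0 (node_inj (node_inj h1).1).2.symm
    · exact absurd (node_inj h1).1 (by simp)
    · exact h.R0 (node_inj (node_inj h1).1).1.symm
    · have h2 := (node_inj h1).1
      have h3 := h.fS
      rw [← h2] at h3
      exact absurd h3 (by simp [fb, isNil])
    · exact h.S0 (node_inj (node_inj h1).1).1.symm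
    · exact absurd (node_inj h1).1 (by simp)
    · exact hS _ (node_inj h1).1.symm

/-- `T(())()` -/
theorem al_new2 (h : Wd R B S) (g : Wm R S) (hl : lastB T = false) {i : ℕ} (hi : i < 20) :
    W R (ch (q + 1)) B S i ≠ app T ((.nil △ .nil) △ (.nil △ .nil)) := by
  intro e
  have e' : W R (ch (q + 1)) B S i = app (app T ((.nil △ .nil) △ .nil)) (.nil △ .nil) := by
    rw [app_assoc]
    exact e
  have hX : lastI (app T ((.nil △ .nil) △ .nil)) = .nil △ .nil := by
    rw [lastI_app (by simp)]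
    rfl
  rcases sh_last h hi e' with ⟨h1, -⟩ | ⟨h0, h1, -⟩ | ⟨rfl, h1⟩
  · have h2 : app T ((.nil △ .nil) △ .nil) = app (app R (.nil △ .nil)) (ch q △ .nil) := by
      rw [h1, app_assoc]
      rfl
    have h3 := (app_snoc h2).1
    rw [h3, lastB_app (by simp)] at hl
    exact absurd hl (by simp [lastB, isNil])
  · rw [h1, lastI_app (by simp), lastI_cons h.S0] at hX
    exact g.lS2 hX
  · rcases h1 with ⟨-, h1⟩ | ⟨-, h1⟩ | ⟨-, h1⟩ | ⟨-, h1⟩ | ⟨-, h1⟩ | ⟨-, h1⟩ | ⟨-, h1⟩ | ⟨-, h1⟩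
    · rw [h1, lastI_cons (app_ne (by simp)), lastI_app (by simp), lastI_one] at hX
      exact absurd hX (by simp)
    · rw [h1, lastI_one] at hX
      exact h.R0 (node_inj hX).2
    · rw [h1, lastI_cons (by simp), lastI_one] at hX
      have h3 := h.fR
      rw [hX] at h3
      exact absurd h3 (by simp [fb, isNil])
    · rw [h1, lastI_one] at hX
      exact h.R0 (node_inj hX).1
    · rw [h1, lastI_cons (app_ne (by simp)), lastI_app (by simp), lastI_one] at hX
      exact absurd hX (by simp)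
    · rw [h1, lastI_one] at hX
      exact h.S0 (node_inj hX).1
    · rw [h1, lastI_cons (app_ne (by simp)), lastI_app (by simp), lastI_one] at hX
      have h3 := h.fB
      rw [hX] at h3
      exact absurd h3 (by simp [fb, isNil])
    · rw [h1, lastI_one] at hX
      have h3 : fb (app S (B △ .nil)) = true := by rw [hX]; rfl
      rw [fb_app h.S0, h.fS] at h3
      exact absurd h3 (by simp)

/-! ### Nodes -/

theorem hv_sq2 : ∀ {s : BinaryTree Unit}, hv s → s ≠ .nil → hv (Tsq.sq s).2 := by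
  intro s
  induction s with
  | nil => intro _ h; exact absurd rfl h
  | node u A C ihA ihC =>
    intro h _
    obtain ⟨hA, hC⟩ := h
    have hA0 := gd_ne hA
    by_cases hlt : Tsq.ht A + 1 < Tsq.ht C
    · have hC0 : C ≠ .nil := by
        rintro rfl
        rw [Tsq.ht] at hlt
        omega
      obtain ⟨X, Y, g, -⟩ := sq_hv hC hC0
      have e := Tsq.sq_lt hlt g.e
      change hv (Tsq.sq (A △ C)).2
      rw [e]
      exact ihC hC hC0
    · push Not at hlt
      have e := Tsq.sq_ge hA0 hlt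
      change hv (Tsq.sq (A △ C)).2
      rw [e]
      exact hC

theorem hv_lastI {A : BinaryTree Unit} (h : hv A) (h0 : A ≠ .nil) : gd (lastI A) := by
  induction A with
  | nil => exact absurd rfl h0
  | node u C D _ ih =>
    cases hD : D with
    | nil => exact h.1
    | node v E F =>
      rw [lastI_cons (by simp), ← hD]
      exact ih h.2 (by rw [hD]; simp)

theorem gd_two {A : BinaryTree Unit} (h : gd A) : A ≠ .nil △ .nil := by
  rintro rfl
  rcases h with h | ⟨-, h⟩
  · exact absurd (node_inj h).1 (by simp)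
  · exact gd_ne h.1 rfl

theorem sq_lastI {H : BinaryTree Unit} (hs : hv s) (hs0 : s ≠ .nil)
    (hH : bl H = true) (ht1 : Tsq.ht B1 < Tsq.ht s + 1) (ht2 : Tsq.ht B ≤ Tsq.ht s + 1) :
    lastI (Tsq.sq (app B1 (app H s △ B))).1 ≠ .nil △ .nil := by
  have hH2 := bl_ht hH
  have hs3 := hv_ht hs hs0
  obtain ⟨X, Y, g, g1, g2, g3⟩ := sq_hv hs hs0
  have e1 : Tsq.ht (app H s) = Tsq.ht s := by rw [Tsq.ht_app]; omega
  have e2 : Tsq.sq (app H s) = (app H X △ Y, (Tsq.sq s).2) := by
    rw [Tsq.sq_pre H s (by omega), g.e]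
    rfl
  have e3 : Tsq.sq (app H s △ B) = ((app H X △ Y) △ (Tsq.sq s).2, B) := by
    rw [Tsq.sq_ge (app_ne hs0) (by omega), e2]
  have e4 : Tsq.sq (app B1 (app H s △ B)) = (app B1 (app H X △ Y) △ (Tsq.sq s).2, B) := by
    rw [Tsq.sq_pre B1 _ (by rw [Tsq.ht_node]; omega), e3]
    rfl
  rw [e4]
  have hv2 := hv_sq2 hs hs0
  cases hb : (Tsq.sq s).2 with
  | nil =>
    change app B1 (app H X △ Y) ≠ _
    intro h
    have hn : app H X ≠ .nil := app_ne g.X0
    cases B1 with
    | nil => exact hn (node_inj h).1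
    | node _ C D => exact absurd (node_inj h).2 (app_ne (by simp))
  | node _ C D =>
    change lastI (_ △ (C △ D)) ≠ _
    rw [lastI_cons (by simp)]
    rw [hb] at hv2
    exact gd_two (hv_lastI hv2 (by simp))

theorem NodeA.wm (h : NodeA k q a m R0 B1 s B) :
    Wm (nR B1 s B a m) (Tsq.sq (nR B1 s B a m)).1 := by
  obtain ⟨v1, v2, v3⟩ := h.heavy
  have t1 := h.tall.top
  have t2 := h.tall.low
  have h4 := h.four
  have t3 : OddHC.ht B ≤ OddHC.ht R0 := by
    rw [h.tall.eq, ht_app, OddHC.ht_node]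
    omega
  refine ⟨?_, ?_⟩
  · intro Y hY
    have h1 := h.we.fR
    rw [hY, fh_node (by simp)] at h1
    have h2 : OddHC.ht ((.nil : BinaryTree Unit) △ .nil) = 1 := rfl
    omega
  · rw [nR_eq]
    exact sq_lastI v2.1 v2.2 (bl_H a m) (by rw [ht_eq, ht_eq]; omega) (by rw [ht_eq, ht_eq]; omega)

/-- **A against L**: the words of the triple `()(T)()`, `T(())()`, `()(())T` -/
theorem NodeA.al (h : NodeA k q a m R0 B1 s B) (hT : T ≠ .nil) (hf : fb T = false)
    (hl : lastB T = false) (w0 : OddHC.X k) {i : ℕ} (hi : i < 20) :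
    (nX q a m B1 s B w0 i).1 ≠ w1 (lp 1) T (lp 1) ∧ (nX q a m B1 s B w0 i).1 ≠ w1 T (lp 1) (lp 1) ∧
      (nX q a m B1 s B w0 i).1 ≠ w1 (lp 1) (lp 1) T := by
  rw [h.word w0 hi]
  exact ⟨al_host h.wd hT hi, al_new2 h.wd h.wm hl hi, al_new1 h.wd h.wm hf hi⟩

end H1

end Pool.OddHC
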